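import Mathlib
import Pool.Agent.H17.FnTop

set_option autoImplicit false

namespace Pool.Agent.Results.MP_8267fa_gt.NotCompletelyRegular
open Pool.Agent.H17.FnTop

theorem result : ∃ (Y Z : Type) (_ : TopologicalSpace Y) (_ : TopologicalSpace Z),
    CompletelyRegularSpace Z ∧ ¬ @CompletelyRegularSpace C(Y, Z) (t1Z Y Z) :=
  ⟨AF, Bool, inferInstance, inferInstance, inferInstance, fun h =>
    not_regular (@CompletelyRegularSpace.instRegularSpace _ (t1Z AF Bool) h)⟩

end Pool.Agent.Results.MP_8267fa_gt.NotCompletelyRegular
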